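import Pool.Agent.HIP.Stmts

/-! HIP, row ALI: an irreducible admissible equation of a multiple of an algebraic element. -/

set_option autoImplicit false

namespace Pool.Agent.HIP.H41

open Polynomial Pool.Agent.HIP

theorem ali : AliStmt := by
  intro A k Ω _ _ _ _ _ _ _ _ _ _ y hy hyk
  have hint : IsIntegral k y := hy.isIntegral
  set m := minpoly k y with hm
  have hmm : m.Monic := minpoly.monic hint
  have hmi : Irreducible m := minpoly.irreducible hint
  set s : A := ((IsLocalization.commonDenom (nonZeroDivisors A) m.support m.coeff :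
    nonZeroDivisors A) : A) with hsdef
  have hs : s ≠ 0 := nonZeroDivisors.ne_zero
    (IsLocalization.commonDenom (nonZeroDivisors A) m.support m.coeff).2
  have hinj : Function.Injective (algebraMap A k) := IsFractionRing.injective A k
  set σ : k := algebraMap A k s with hσ
  have hσ0 : σ ≠ 0 := by
    intro h
    apply hs
    apply hinj
    rw [map_zero]
    exact h
  have hl : m.scaleRoots σ ∈ Polynomial.lifts (algebraMap A k) :=
    IsLocalization.scaleRoots_commonDenom_mem_lifts (nonZeroDivisors A) m
      (by rw [hmm.leadingCoeff]; exact ⟨1, map_one _⟩)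
  have hsm : (m.scaleRoots σ).Monic := (monic_scaleRoots_iff σ).mpr hmm
  obtain ⟨g, hg, hgd, hgm⟩ := Polynomial.lifts_and_natDegree_eq_and_monic hl hsm
  have hirr : Irreducible (m.scaleRoots σ) :=
    Pool.Agent.Helper25_HIK.irreducible_scaleRoots m hmi σ hσ0
  refine ⟨s, g, hs, hgm, ?_, ?_, ?_, ?_⟩
  · have h1 : eval₂ (algebraMap k Ω) (algebraMap k Ω σ * y) (m.scaleRoots σ) = 0 :=
      scaleRoots_eval₂_eq_zero (algebraMap k Ω) (minpoly.aeval k y)
    rw [← hg, eval₂_map, ← IsScalarTower.algebraMap_eq, hσ,
      ← IsScalarTower.algebraMap_apply A k Ω] at h1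
    exact h1
  · have h2 : g.natDegree = m.natDegree := by
      rw [hgd, natDegree_scaleRoots]
    have h3 : 0 < m.natDegree := minpoly.natDegree_pos hint
    have h4 : m.natDegree ≠ 1 := by
      intro h
      apply hyk
      apply minpoly.mem_range_of_degree_eq_one k y
      rw [Polynomial.degree_eq_natDegree hmm.ne_zero, h]
      rfl
    omega
  · rw [hg]
    exact hirr
  · obtain ⟨a, b, hab⟩ := hirr.separable
    obtain ⟨ra, hra, hA⟩ := IsLocalization.integerNormalization_spec (nonZeroDivisors A) a
    obtain ⟨rb, hrb, hB⟩ := IsLocalization.integerNormalization_spec (nonZeroDivisors A) b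
    set A' := IsLocalization.integerNormalization (nonZeroDivisors A) a
    set B' := IsLocalization.integerNormalization (nonZeroDivisors A) b
    refine ⟨C rb * A', C ra * B', ra * rb,
      mul_ne_zero (nonZeroDivisors.ne_zero hra) (nonZeroDivisors.ne_zero hrb), ?_⟩
    apply Polynomial.map_injective (algebraMap A k) hinj
    rw [Polynomial.map_add, Polynomial.map_mul, Polynomial.map_mul, Polynomial.map_mul,
      Polynomial.map_mul, ← Polynomial.derivative_map, hg, hA, hB, map_C, map_C, map_C,
      Algebra.smul_def, Algebra.smul_def, IsScalarTower.algebraMap_apply A k k[X],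
      IsScalarTower.algebraMap_apply A k k[X], Polynomial.algebraMap_eq, map_mul, map_mul]
    linear_combination (C (algebraMap A k ra) * C (algebraMap A k rb)) * hab

end Pool.Agent.HIP.H41
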