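import Pool.Agent.HIP.Stmts

/-! HIP, row HIZ: an admissible irreducible polynomial has a root in the ring of integers only for a set
of parameters with the power saving `1/4`. -/

set_option autoImplicit false

namespace Pool.Agent.HIP.H41

open Polynomial NumberField Pool.Agent.HIK Pool.Agent.HIP

theorem hiz (cni : CniStmt) (avz : AvzStmt) : HizStmt := by
  intro K _ _ g hg
  obtain ⟨C', R0, hR0⟩ := cni K g hg
  refine avz K _ (1 / 4) (by norm_num) (by norm_num) ⟨8 * C', (R0 + 1) ^ 4 + 1, ?_⟩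
  intro X hX a0 ha0
  have hX1 : 1 ≤ X := by omega
  obtain ⟨R, hR1, hR2⟩ := H65.exR 4 (by norm_num) X hX1
  have hRM : R0 + 1 < R + 1 := by
    by_contra hcon
    have h3 := Nat.pow_le_pow_left (Nat.le_of_not_lt hcon) 4
    omega
  have hRpos : 1 ≤ R := by omega
  have hh : house (a0 : K) ≤ 2 * ((R + 1 : ℕ) : ℝ) ^ 4 := by
    refine ha0.trans ?_
    have h4 : (X : ℝ) ≤ ((R + 1 : ℕ) : ℝ) ^ 4 := by exact_mod_cast hR1
    linarith
  have h5 := hR0 (R + 1) (by omega) a0 hh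
  have h6 : Nat.card {j : ℕ // j < X ∧ a0 + (j : 𝓞 K) ∈ {a : 𝓞 K | ∃ y : 𝓞 K, evalEval a y g = 0}} ≤
      Nat.card {n : ℕ // n < (R + 1) ^ 4 ∧ ∃ y : 𝓞 K, evalEval (a0 + n) y g = 0} := by
    have hfin : Finite {n : ℕ // n < (R + 1) ^ 4 ∧ ∃ y : 𝓞 K, evalEval (a0 + n) y g = 0} :=
      Set.Finite.to_subtype ((Set.finite_lt_nat ((R + 1) ^ 4)).subset fun n hn => hn.1)
    refine Nat.card_le_card_of_injective
      (fun j => ⟨j.1, lt_of_lt_of_le j.2.1 hR1, j.2.2⟩) ?_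
    intro j j' hjj
    exact Subtype.ext (congrArg (fun z => z.1) hjj)
  have h7 : (Nat.card {j : ℕ // j < X ∧ a0 + (j : 𝓞 K) ∈
      {a : 𝓞 K | ∃ y : 𝓞 K, evalEval a y g = 0}} : ℝ) ≤ (C' : ℝ) * ((R + 1 : ℕ) : ℝ) ^ 3 := by
    have h8 := h6.trans h5
    exact_mod_cast h8
  refine h7.trans ?_
  have hR : (1 : ℝ) ≤ R := by exact_mod_cast hRpos
  have h9 : ((R + 1 : ℕ) : ℝ) ^ 3 ≤ 8 * (R : ℝ) ^ 3 := by
    have h10 : ((R + 1 : ℕ) : ℝ) ^ 3 ≤ (2 * (R : ℝ)) ^ 3 := by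
      apply pow_le_pow_left₀ (by positivity)
      push_cast
      linarith
    refine h10.trans (le_of_eq ?_)
    ring
  have h11 : (R : ℝ) ^ 3 ≤ (X : ℝ) ^ (1 - 1 / 4 : ℝ) := by
    have h12 : (R : ℝ) ^ 3 = ((R : ℝ) ^ 4) ^ (1 - 1 / 4 : ℝ) := by
      rw [← Real.rpow_natCast (R : ℝ) 4, ← Real.rpow_mul (by linarith), ← Real.rpow_natCast]
      norm_num
    rw [h12]
    apply Real.rpow_le_rpow (by positivity) _ (by norm_num)
    exact_mod_cast hR2.le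
  calc (C' : ℝ) * ((R + 1 : ℕ) : ℝ) ^ 3 ≤ C' * (8 * (R : ℝ) ^ 3) :=
        mul_le_mul_of_nonneg_left h9 (Nat.cast_nonneg _)
    _ ≤ C' * (8 * (X : ℝ) ^ (1 - 1 / 4 : ℝ)) :=
        mul_le_mul_of_nonneg_left (mul_le_mul_of_nonneg_left h11 (by norm_num)) (Nat.cast_nonneg _)
    _ = 8 * C' * (X : ℝ) ^ (1 - 1 / 4 : ℝ) := by ring

end Pool.Agent.HIP.H41
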