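import Pool.Agent.HIP.Stmts

/-! HIP, row PZC: calculus of power saving. -/

set_option autoImplicit false

namespace Pool.Agent.HIP.H41

open Polynomial NumberField Pool.Agent.HIK Pool.Agent.HIP

theorem pzc_of (box : BoxStmt) : PzcStmt := by
  classical
  intro K _ _ δ
  refine ⟨?_, ?_, ?_, ?_, ?_⟩
  · rintro S T hST ⟨C, hC⟩
    refine ⟨C, fun X hX => le_trans ?_ (hC X hX)⟩
    have := H94.fin_le box T X
    have h1 : Nat.card {a : 𝓞 K // a ∈ S ∧ house (a : K) ≤ X} ≤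
        Nat.card {a : 𝓞 K // a ∈ T ∧ house (a : K) ≤ X} :=
      Nat.card_le_card_of_injective (fun n => ⟨n.1, hST n.2.1, n.2.2⟩)
        (fun a b hab => Subtype.ext (by simpa using hab))
    exact_mod_cast h1
  · intro ι _ S h
    choose C hC using h
    cases nonempty_fintype ι
    refine ⟨∑ i, C i, fun X hX => ?_⟩
    have hf : ∀ i, Finite {a : 𝓞 K // a ∈ S i ∧ house (a : K) ≤ X} := fun i =>
      H94.fin_le box (S i) X
    have h1 : Nat.card {a : 𝓞 K // a ∈ (⋃ i, S i) ∧ house (a : K) ≤ X} ≤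
        Nat.card (Σ i, {a : 𝓞 K // a ∈ S i ∧ house (a : K) ≤ X}) := by
      have h2 : ∀ a : {a : 𝓞 K // a ∈ (⋃ i, S i) ∧ house (a : K) ≤ X}, ∃ i, a.1 ∈ S i :=
        fun a => Set.mem_iUnion.1 a.2.1
      choose j hj using h2
      refine Nat.card_le_card_of_injective (fun a => ⟨j a, a.1, hj a, a.2.2⟩) ?_
      intro a b hab
      exact Subtype.ext (congrArg
        (fun z : (Σ i, {a : 𝓞 K // a ∈ S i ∧ house (a : K) ≤ X}) => z.2.1) hab)
    rw [Nat.card_sigma] at h1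
    have h4 : (Nat.card {a : 𝓞 K // a ∈ (⋃ i, S i) ∧ house (a : K) ≤ X} : ℝ) ≤
        ∑ i, (Nat.card {a : 𝓞 K // a ∈ S i ∧ house (a : K) ≤ X} : ℝ) := by
      exact_mod_cast h1
    rw [Finset.sum_mul]
    exact h4.trans (Finset.sum_le_sum fun i _ => hC i X hX)
  · intro hδ S hS
    have hfin : Finite S := hS.to_subtype
    refine ⟨Nat.card S, fun X hX => ?_⟩
    have h1 : Nat.card {a : 𝓞 K // a ∈ S ∧ house (a : K) ≤ X} ≤ Nat.card S :=
      Nat.card_le_card_of_injective (fun n => (⟨n.1, n.2.1⟩ : S))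
        (fun a b hab => Subtype.ext (by simpa using hab))
    have h2 : (Nat.card {a : 𝓞 K // a ∈ S ∧ house (a : K) ≤ X} : ℝ) ≤ Nat.card S := by
      exact_mod_cast h1
    have hm : (1 : ℝ) ≤ (Module.finrank ℚ K : ℝ) := by
      have : 1 ≤ Module.finrank ℚ K := Module.finrank_pos
      exact_mod_cast this
    have h3 : (1 : ℝ) ≤ (X : ℝ) ^ ((Module.finrank ℚ K : ℝ) - δ) :=
      Real.one_le_rpow (by exact_mod_cast hX) (by linarith)
    calc (Nat.card {a : 𝓞 K // a ∈ S ∧ house (a : K) ≤ X} : ℝ) ≤ Nat.card S * 1 := by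
          rw [mul_one]; exact h2
      _ ≤ Nat.card S * (X : ℝ) ^ ((Module.finrank ℚ K : ℝ) - δ) :=
          mul_le_mul_of_nonneg_left h3 (Nat.cast_nonneg _)
  · rintro δ' hδ' S ⟨C, hC⟩
    refine ⟨max C 0, fun X hX => (hC X hX).trans ?_⟩
    have hX1 : (1 : ℝ) ≤ X := by exact_mod_cast hX
    have h1 : (X : ℝ) ^ ((Module.finrank ℚ K : ℝ) - δ) ≤ (X : ℝ) ^ ((Module.finrank ℚ K : ℝ) - δ') :=
      Real.rpow_le_rpow_of_exponent_le hX1 (by linarith)
    calc C * (X : ℝ) ^ ((Module.finrank ℚ K : ℝ) - δ) ≤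
          max C 0 * (X : ℝ) ^ ((Module.finrank ℚ K : ℝ) - δ) :=
          mul_le_mul_of_nonneg_right (le_max_left _ _) (by positivity)
      _ ≤ max C 0 * (X : ℝ) ^ ((Module.finrank ℚ K : ℝ) - δ') :=
          mul_le_mul_of_nonneg_left h1 (le_max_right _ _)
  · rintro hδ S ⟨C, hC⟩
    apply H94.dens_of
    intro ε hε
    have ht : Filter.Tendsto (fun X : ℕ => max C 0 * (X : ℝ) ^ (-δ)) Filter.atTop (nhds 0) := by
      have h1 := (tendsto_rpow_neg_atTop hδ).comp (tendsto_natCast_atTop_atTop (R := ℝ))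
      have h2 := h1.const_mul (max C 0)
      rw [mul_zero] at h2
      exact h2
    have hev := ht.eventually (gt_mem_nhds hε)
    obtain ⟨X0, hX0⟩ := Filter.eventually_atTop.1 hev
    refine ⟨X0 + 1, fun X hX => ?_⟩
    have hX1 : (0 : ℝ) < X := by
      have : 0 < X := by omega
      exact_mod_cast this
    have h3 := hX0 X (by omega)
    have h4 : (X : ℝ) ^ ((Module.finrank ℚ K : ℝ) - δ) =
        (X : ℝ) ^ (-δ) * (X : ℝ) ^ Module.finrank ℚ K := by
      rw [← Real.rpow_natCast (X : ℝ) (Module.finrank ℚ K), ← Real.rpow_add hX1]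
      congr 1
      ring
    refine (hC X (by omega)).trans ?_
    rw [h4]
    have h5 : C * (X : ℝ) ^ (-δ) ≤ ε := by
      refine le_trans ?_ h3.le
      exact mul_le_mul_of_nonneg_right (le_max_left _ _) (by positivity)
    calc C * ((X : ℝ) ^ (-δ) * (X : ℝ) ^ Module.finrank ℚ K) =
          (C * (X : ℝ) ^ (-δ)) * (X : ℝ) ^ Module.finrank ℚ K := by ring
      _ ≤ ε * (X : ℝ) ^ Module.finrank ℚ K := mul_le_mul_of_nonneg_right h5 (by positivity)

theorem pzc : PzcStmt := pzc_of boxA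

end Pool.Agent.HIP.H41
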